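import Pool.Agent.H21.ASY.Stmts

/-!
# Row HHM of the ASY board: the function `HH` is multiplicative
-/

set_option autoImplicit false

namespace Pool.ASY

open Finset MeasureTheory Pool.Agent.H98.ABCR Pool.SHA ArithmeticFunction
open scoped ArithmeticFunction.Moebius

/-- the power `exc ^ (2 / 3)` as an arithmetic function -/
noncomputable def hhmG : ArithmeticFunction ℝ where
  toFun d := (exc d : ℝ) ^ (2 / 3 : ℝ)
  map_zero' := by
    have h : exc 0 = 0 := Nat.zero_div _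
    rw [h, Nat.cast_zero, Real.zero_rpow (by norm_num)]

lemma hhmG_apply (d : ℕ) : hhmG d = (exc d : ℝ) ^ (2 / 3 : ℝ) := rfl

lemma hhm_exc_one (h1 : S_EXC) : exc 1 = 1 := by
  have h := (h1.1 1 one_pos).1
  exact Nat.eq_one_of_mul_eq_one_left h.symm

lemma hhm_eq (d : ℕ) : HH d = ((μ : ArithmeticFunction ℝ) * hhmG) d := by
  rw [ArithmeticFunction.mul_apply,
    Nat.sum_divisorsAntidiagonal' (f := fun a b => (μ : ArithmeticFunction ℝ) a * hhmG b)]
  rfl

lemma hhm_mult (h1 : S_EXC) : ((μ : ArithmeticFunction ℝ) * hhmG).IsMultiplicative := by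
  apply IsMultiplicative.mul isMultiplicative_moebius.intCast
  refine ⟨?_, ?_⟩
  · rw [hhmG_apply, hhm_exc_one h1, Nat.cast_one, Real.one_rpow]
  · intro m n hmn
    rw [hhmG_apply, hhmG_apply, hhmG_apply, h1.2.2.1 m n hmn, Nat.cast_mul,
      Real.mul_rpow (by positivity) (by positivity)]

lemma hhm_pp (p k : ℕ) (hp : p.Prime) :
    HH (p ^ (k + 1)) = (exc (p ^ (k + 1)) : ℝ) ^ (2 / 3 : ℝ) - (exc (p ^ k) : ℝ) ^ (2 / 3 : ℝ) := by
  unfold HH
  rw [Nat.sum_divisors_prime_pow hp, Finset.sum_range_succ, Finset.sum_range_succ]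
  have h1 : ∀ x ∈ range k, ((μ (p ^ (k + 1) / p ^ x) : ℤ) : ℝ) *
      (exc (p ^ x) : ℝ) ^ (2 / 3 : ℝ) = 0 := by
    intro x hx
    rw [mem_range] at hx
    rw [Nat.pow_div (by omega) hp.pos, moebius_apply_prime_pow hp (by omega), if_neg (by omega)]
    simp
  rw [Finset.sum_eq_zero h1, zero_add, Nat.pow_div (by omega) hp.pos,
    Nat.pow_div le_rfl hp.pos]
  have h2 : k + 1 - k = 1 := by omega
  rw [h2, pow_one, Nat.sub_self, pow_zero, moebius_apply_prime hp, moebius_apply_one]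
  push_cast
  ring

theorem hhm_thm (h1 : S_EXC) : S_HHM := by
  have hone := hhm_exc_one h1
  have hH1 : HH 1 = 1 := by
    rw [hhm_eq]; exact (hhm_mult h1).1
  have hmul : ∀ m n : ℕ, m.Coprime n → HH (m * n) = HH m * HH n := by
    intro m n hmn
    rw [hhm_eq, hhm_eq, hhm_eq]
    exact (hhm_mult h1).2 hmn
  have hp1 : ∀ p : ℕ, p.Prime → HH p = 0 := by
    intro p hp
    have h2 := hhm_pp p 0 hp
    have h3 := h1.2.2.2.1 p 0 hp
    rw [zero_add, pow_one] at h2 h3
    rw [h2, h3, pow_zero, hone, sub_self]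
  have hp2 : ∀ p e : ℕ, p.Prime →
      HH (p ^ (e + 2)) = (p : ℝ) ^ (2 * (e + 1) / 3 : ℝ) - (p : ℝ) ^ (2 * e / 3 : ℝ) := by
    intro p e hp
    have h2 := hhm_pp p (e + 1) hp
    have h3 := h1.2.2.2.1 p (e + 1) hp
    have h4 := h1.2.2.2.1 p e hp
    have h5 : e + 2 = e + 1 + 1 := rfl
    rw [h5, h2, h3, h4, Nat.cast_pow, Nat.cast_pow, ← Real.rpow_natCast, ← Real.rpow_natCast,
      ← Real.rpow_mul (by positivity), ← Real.rpow_mul (by positivity)]
    push_cast
    congr 2 <;> ring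
  refine ⟨hH1, hmul, hp1, hp2, ?_⟩
  intro d
  induction d using Nat.recOnPosPrimePosCoprime with
  | prime_pow p n hp hn =>
    intro _
    have hpp : (1 : ℝ) ≤ p := by exact_mod_cast hp.one_lt.le
    rcases Nat.lt_or_ge n 2 with h2 | h2
    · have h3 : n = 1 := by omega
      rw [h3, pow_one, hp1 p hp]
      exact ⟨le_rfl, by positivity⟩
    · obtain ⟨e, rfl⟩ : ∃ e, n = e + 2 := ⟨n - 2, by omega⟩
      rw [hp2 p e hp]
      have h3 := h1.2.2.2.1 p (e + 1) hp
      have h4 : e + 2 = e + 1 + 1 := rfl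
      rw [h4, h3, Nat.cast_pow, ← Real.rpow_natCast (p : ℝ) (e + 1),
        ← Real.rpow_mul (by positivity)]
      have h5 : (p : ℝ) ^ (2 * (e : ℝ) / 3) ≤ (p : ℝ) ^ (2 * ((e : ℝ) + 1) / 3) :=
        Real.rpow_le_rpow_of_exponent_le hpp (by linarith)
      refine ⟨by linarith, ?_⟩
      have h6 : 2 * ((e : ℝ) + 1) / 3 = ((e + 1 : ℕ) : ℝ) * (2 / 3) := by
        push_cast; ring
      rw [← h6]
      have h7 : (0 : ℝ) ≤ (p : ℝ) ^ (2 * (e : ℝ) / 3) := by positivity
      linarith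
  | zero => intro h; exact absurd h (lt_irrefl 0)
  | one =>
    intro _
    rw [hH1, hone, Nat.cast_one, Real.one_rpow]
    exact ⟨zero_le_one, le_rfl⟩
  | coprime a b ha hb hab iha ihb =>
    intro _
    obtain ⟨h2, h3⟩ := iha (by omega)
    obtain ⟨h4, h5⟩ := ihb (by omega)
    rw [hmul a b hab, h1.2.2.1 a b hab, Nat.cast_mul,
      Real.mul_rpow (by positivity) (by positivity)]
    exact ⟨mul_nonneg h2 h4, mul_le_mul h3 h5 h4 (by positivity)⟩

end Pool.ASY
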